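import Pool.Agent.L0h94.SP.StmE

/-!
# SP/CNT: many good polynomials

Compare `good_card` in `N99/PF/Main.lean` (helper99).
-/

set_option autoImplicit false
set_option linter.all false

open Polynomial IsDedekindDomain NumberField
open scoped Classical

namespace Pool.Agent.L0h71.SP

open Pool.Agent.N352.PJ (Mt Typ dd)
open Pool.Agent.N783.PF
open Pool.Agent.L0h94.SP

theorem goodS_sub {F : Type} [Field F] [NumberField F] {g W W' : ℕ} {S S' : Finset ℕ}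
    {𝔮 : ℕ → Ideal (𝓞 F)} {h A : ℕ → (𝓞 F)[X]} (hS : GoodS g W S 𝔮 h A) (h1 : S' ⊆ S)
    (h2 : ∀ q ∈ S', W' < q) : GoodS g W' S' 𝔮 h A := by
  intro q hq
  obtain ⟨a1, a2, a3⟩ := hS q (h1 hq)
  exact ⟨a1, h2 q hq, a3⟩

theorem union_bound {α ι : Type} (I : Finset ι) (A : ι → Set α) (P : ℝ) (hP : 0 ≤ P)
    (x : ι → ℝ) (hfin : ∀ i ∈ I, (A i).Finite) (hx : ∀ i ∈ I, P * ((A i).ncard : ℝ) ≤ x i) :
    (⋃ i ∈ I, A i).Finite ∧ P * ((⋃ i ∈ I, A i).ncard : ℝ) ≤ ∑ i ∈ I, x i := by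
  induction I using Finset.induction_on with
  | empty => simp
  | insert a I ha ih =>
    obtain ⟨h1, h2⟩ := ih (fun i hi => hfin i (Finset.mem_insert_of_mem hi))
      (fun i hi => hx i (Finset.mem_insert_of_mem hi))
    rw [Finset.set_biUnion_insert, Finset.sum_insert ha]
    refine ⟨(hfin a (Finset.mem_insert_self _ _)).union h1, ?_⟩
    have h3 := Set.ncard_union_le (A a) (⋃ i ∈ I, A i)
    have h4 : ((A a ∪ ⋃ i ∈ I, A i).ncard : ℝ) ≤ (A a).ncard + (⋃ i ∈ I, A i).ncard := by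
      exact_mod_cast h3
    calc P * ((A a ∪ ⋃ i ∈ I, A i).ncard : ℝ)
        ≤ P * ((A a).ncard + (⋃ i ∈ I, A i).ncard) := mul_le_mul_of_nonneg_left h4 hP
      _ = P * ((A a).ncard : ℝ) + P * ((⋃ i ∈ I, A i).ncard : ℝ) := by ring
      _ ≤ _ := add_le_add (hx a (Finset.mem_insert_self _ _)) h2

theorem sup_mono (T : ℕ → Finset ℕ) {i j : ℕ} (h : i ≤ j) : sup T i ⊆ sup T j :=
  Finset.biUnion_subset_biUnion_of_subset_left T (Finset.range_mono h)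

theorem sub_sup (T : ℕ → Finset ℕ) {i M : ℕ} (h : i < M) : T i ⊆ sup T M :=
  Finset.subset_biUnion_of_mem T (Finset.mem_range.2 h)

theorem disj_sup {T : ℕ → Finset ℕ} {M : ℕ} (hd : ∀ i < M, ∀ j < M, i ≠ j → Disjoint (T i) (T j))
    {i : ℕ} (h : i < M) : Disjoint (T i) (sup T i) := by
  unfold sup
  rw [Finset.disjoint_biUnion_right]
  intro j hj
  rw [Finset.mem_range] at hj
  exact hd i h j (hj.trans h) (by omega)

theorem sub_sdiff {T : ℕ → Finset ℕ} {M : ℕ}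
    (hd : ∀ i < M, ∀ j < M, i ≠ j → Disjoint (T i) (T j)) {i : ℕ} (h : i < M) :
    T i ⊆ sup T M \ sup T i := by
  intro q hq
  rw [Finset.mem_sdiff]
  exact ⟨sub_sup T h hq, Finset.disjoint_left.1 (disj_sup hd h) hq⟩

/-- the choice of `N` -/
theorem exists_N (κ B : ℕ) (hB : 1 ≤ B) :
    ∃ N : ℕ, 2 ^ κ * B ≤ 4 ^ N ∧ 4 ^ N ≤ 4 * (2 ^ κ * B) := by
  refine ⟨Nat.log 4 (2 ^ κ * B) + 1, (Nat.lt_pow_succ_log_self (by norm_num) _).le, ?_⟩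
  rw [pow_succ, mul_comm]
  refine Nat.mul_le_mul_left 4 (Nat.pow_log_le_self 4 ?_)
  positivity

theorem pow_bound {κ B N D : ℕ} (hN : 4 ^ N ≤ 4 * (2 ^ κ * B)) :
    (2 : ℝ) ^ (2 * N * D) ≤ (4 * 2 ^ κ : ℝ) ^ D * (B : ℝ) ^ D := by
  have e1 : (2 : ℝ) ^ (2 * N * D) = ((4 : ℝ) ^ N) ^ D := by
    rw [pow_mul, pow_mul]
    norm_num
  have hN' : (4 : ℝ) ^ N ≤ 4 * (2 ^ κ * B) := by exact_mod_cast hN
  rw [e1, ← mul_pow]
  exact pow_le_pow_left₀ (by positivity) (by linarith) _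

theorem t_CNT (hFAM : Pool.Agent.N783.PF.S_FAM) (hBAD : Pool.Agent.N783.PF.S_BAD)
    (hBADP : S_BADP) (hEXN : S_EXN) (hCHEB : S_CHEB) : S_CNT := by
  intro F _ _ M κ0 K0 κf hM
  obtain ⟨C0, KB, hbad⟩ := hBAD F 1 κ0 le_rfl
  have hbp := fun c : ℕ => hBADP F 1 c le_rfl
  choose Cc Kc hbp using hbp
  obtain ⟨W, f₁, hKW, hf₁, c, hc, hfam⟩ := hFAM F 1 le_rfl (max K0 KB)
  obtain ⟨D, hD⟩ : ∃ D : ℕ, D = Module.finrank ℚ F * dd 1 := ⟨_, rfl⟩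
  have hDN : ∀ N : ℕ, Module.finrank ℚ F * (2 * N * dd 1) = 2 * N * D := by
    intro N
    rw [hD]
    ring
  have hMR : (0 : ℝ) < M := by exact_mod_cast hM
  obtain ⟨m0, hm0⟩ : ∃ m0 : ℕ, 4 * (C0 * (4 * 2 ^ κ0 : ℝ) ^ D) / c < 2 ^ m0 :=
    pow_unbounded_of_one_lt _ (by norm_num)
  obtain ⟨E, hE⟩ : ∃ E : Finset ℕ → ℝ, E = fun Y =>
    (((∏ q ∈ Y, q ^ (2 * 1)) ^ Module.finrank ℚ F : ℕ) : ℝ) * Cc (κf Y) *
      (4 * 2 ^ (κf Y) : ℝ) ^ D := ⟨_, rfl⟩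
  have hE0 : ∀ Y, 0 ≤ E Y := by
    intro Y
    rw [hE]
    positivity
  obtain ⟨T, 𝔮, r, P, hBlk, hcard⟩ := hEXN F W M (fun Y => max (κf Y) (Kc (κf Y)))
    (fun Y => ⌈((4 : ℝ) ^ Y.card) ^ 2 * E Y * (4 * M) / c⌉₊ + m0 + 1)
  obtain ⟨Pt, hPt⟩ : ∃ Pt : ℕ, Pt = (∏ q ∈ sup T M, q ^ (2 * 1)) ^ Module.finrank ℚ F := ⟨_, rfl⟩
  have hPt0 : 0 < Pt := by
    rw [hPt]
    exact pow_pos (Finset.prod_pos fun q hq => pow_pos (hBlk.good q hq).1.pos _) _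
  have hPR : (0 : ℝ) < Pt := by exact_mod_cast hPt0
  obtain ⟨B₁, hB₁⟩ := hfam (sup T M) 𝔮 r P hBlk.good
  obtain ⟨N₁, hN₁⟩ := hbad W (sup T M) 𝔮 r P ((le_max_right _ _).trans hKW) hBlk.good
  have hbp2 : ∀ (i : ℕ) (Z : Finset ℕ), i < M → ∃ N₀ : ℕ, ∀ N ≥ N₀,
      {f : (𝓞 F)[X] | LP 1 N (κf (sup T i)) (sup T M \ sup T i) (T i) Z 𝔮 P f}.Finite ∧
      2 ^ (T i).card * (∏ q ∈ sup T M \ sup T i, q ^ (2 * 1)) ^ Module.finrank ℚ F *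
        {f : (𝓞 F)[X] | LP 1 N (κf (sup T i)) (sup T M \ sup T i) (T i) Z 𝔮 P f}.ncard ≤
      Cc (κf (sup T i)) * 2 ^ (Module.finrank ℚ F * (2 * N * dd 1)) := by
    intro i Z hi
    exact hbp (κf (sup T i)) (Kc (κf (sup T i))) (sup T M \ sup T i) 𝔮 r P le_rfl
      (goodS_sub hBlk.good Finset.sdiff_subset (fun q hq => by
        rw [Finset.mem_sdiff] at hq
        exact lt_of_le_of_lt (le_max_right _ _) (hBlk.big i hi q hq.1 hq.2)))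
      (T i) Z (sub_sdiff hBlk.disj hi)
  choose! N₂ hN₂ using hbp2
  refine ⟨W, f₁, T, 𝔮, r, P, (le_max_left _ _).trans hKW, hf₁,
    ⟨hBlk.good, hBlk.disj, fun i hi q hq hq' => lt_of_le_of_lt (le_max_left _ _)
      (hBlk.big i hi q hq hq')⟩, ?_, c / 2 / Pt, by positivity,
    max (max B₁ (4 ^ (N₁ + ∑ i ∈ Finset.range M, ∑ Z ∈ (T i).powerset, N₂ i Z))) 1, ?_⟩
  · intro i hi
    rw [← Finset.card_pos, hcard i hi]
    omega
  intro B hB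
  have hB1 : 1 ≤ B := (le_max_right _ _).trans hB
  have hB2 : B₁ ≤ B := ((le_max_left _ _).trans (le_max_left _ _)).trans hB
  have hB3 : 4 ^ (N₁ + ∑ i ∈ Finset.range M, ∑ Z ∈ (T i).powerset, N₂ i Z) ≤ B :=
    ((le_max_right _ _).trans (le_max_left _ _)).trans hB
  have hBR : (0 : ℝ) < B := by exact_mod_cast hB1
  choose Nf hNf1 hNf2 using fun κ : ℕ => exists_N κ B hB1
  have hNf3 : ∀ κ, N₁ + ∑ i ∈ Finset.range M, ∑ Z ∈ (T i).powerset, N₂ i Z ≤ Nf κ := by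
    intro κ
    have h1 : 4 ^ (N₁ + ∑ i ∈ Finset.range M, ∑ Z ∈ (T i).powerset, N₂ i Z) ≤ 4 ^ (Nf κ) :=
      hB3.trans ((Nat.le_mul_of_pos_left _ (by positivity)).trans (hNf1 κ))
    exact (Nat.pow_le_pow_iff_right (by norm_num)).1 h1
  -- the family
  have hFc := hB₁ B hB2
  rw [← hPt, ← hD] at hFc
  have hFfin : {f : (𝓞 F)[X] | Fam 1 B W f₁ (sup T M) P f}.Finite := by
    apply Set.finite_of_ncard_pos
    by_contra h0
    have h1 : {f : (𝓞 F)[X] | Fam 1 B W f₁ (sup T M) P f}.ncard = 0 := by omega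
    rw [h1, Nat.cast_zero, mul_zero] at hFc
    have : 0 < c * (B : ℝ) ^ D := by positivity
    linarith
  -- the bad polynomials of the first kind
  obtain ⟨hLf, hLc⟩ := hN₁ (Nf κ0) ((Nat.le_add_right _ _).trans (hNf3 κ0))
  rw [← hPt, hDN] at hLc
  have hL : (Pt : ℝ) * ({f : (𝓞 F)[X] | LBad 1 (Nf κ0) κ0 (sup T M) 𝔮 P f}.ncard : ℝ) ≤
      c / 4 * (B : ℝ) ^ D := by
    have h1 : (2 : ℝ) ^ (sup T M).card * Pt *
        ({f : (𝓞 F)[X] | LBad 1 (Nf κ0) κ0 (sup T M) 𝔮 P f}.ncard : ℝ) ≤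
        C0 * ((4 * 2 ^ κ0 : ℝ) ^ D * (B : ℝ) ^ D) := by
      refine le_trans ?_ (mul_le_mul_of_nonneg_left (pow_bound (hNf2 κ0)) (Nat.cast_nonneg C0))
      exact_mod_cast hLc
    have h2 : m0 ≤ (sup T M).card := by
      have h3 := Finset.card_le_card (sub_sup T hM)
      rw [hcard 0 hM] at h3
      omega
    have h3 : (2 : ℝ) ^ m0 ≤ (2 : ℝ) ^ (sup T M).card :=
      pow_le_pow_right₀ (by norm_num) h2
    rw [div_lt_iff₀ hc] at hm0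
    obtain ⟨x, hx⟩ : ∃ x : ℝ, x = (Pt : ℝ) *
      ({f : (𝓞 F)[X] | LBad 1 (Nf κ0) κ0 (sup T M) 𝔮 P f}.ncard : ℝ) := ⟨_, rfl⟩
    have hx0 : 0 ≤ x := by rw [hx]; positivity
    have h4 : (2 : ℝ) ^ m0 * x ≤ C0 * ((4 * 2 ^ κ0 : ℝ) ^ D * (B : ℝ) ^ D) := by
      refine le_trans (mul_le_mul_of_nonneg_right h3 hx0) ?_
      rw [hx, ← mul_assoc]
      exact h1
    rw [← hx]
    have h2r : (0 : ℝ) < 2 ^ m0 := by positivity
    rw [← mul_le_mul_iff_right₀ h2r]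
    have hBD : (0 : ℝ) ≤ (B : ℝ) ^ D := by positivity
    calc (2 : ℝ) ^ m0 * x ≤ C0 * ((4 * 2 ^ κ0 : ℝ) ^ D * (B : ℝ) ^ D) := h4
      _ = (4 * (C0 * (4 * 2 ^ κ0 : ℝ) ^ D)) * ((B : ℝ) ^ D / 4) := by ring
      _ ≤ (2 ^ m0 * c) * ((B : ℝ) ^ D / 4) := mul_le_mul_of_nonneg_right hm0.le (by positivity)
      _ = 2 ^ m0 * (c / 4 * (B : ℝ) ^ D) := by ring
  -- the bad polynomials of the second kind
  obtain ⟨Zs, hZs⟩ : ∃ Zs : ℕ → Finset (Finset ℕ), Zs = fun i => (T i).powerset.filter fun Z =>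
    ((T i).card : ℤ) ≤ ((4 ^ (sup T i).card : ℕ) : ℤ) * |2 * (Z.card : ℤ) - (T i).card| :=
    ⟨_, rfl⟩
  have hblock : ∀ i ∈ Finset.range M,
      (⋃ Z ∈ Zs i, {f : (𝓞 F)[X] | LP 1 (Nf (κf (sup T i))) (κf (sup T i))
        (sup T M \ sup T i) (T i) Z 𝔮 P f}).Finite ∧
      (Pt : ℝ) * ((⋃ Z ∈ Zs i, {f : (𝓞 F)[X] | LP 1 (Nf (κf (sup T i))) (κf (sup T i))
        (sup T M \ sup T i) (T i) Z 𝔮 P f}).ncard : ℝ) ≤ c / (4 * M) * (B : ℝ) ^ D := by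
    intro i hi
    rw [Finset.mem_range] at hi
    have h1 : ∀ Z ∈ Zs i, {f : (𝓞 F)[X] | LP 1 (Nf (κf (sup T i))) (κf (sup T i))
        (sup T M \ sup T i) (T i) Z 𝔮 P f}.Finite ∧
        (Pt : ℝ) * ({f : (𝓞 F)[X] | LP 1 (Nf (κf (sup T i))) (κf (sup T i))
        (sup T M \ sup T i) (T i) Z 𝔮 P f}.ncard : ℝ) ≤
          E (sup T i) * (B : ℝ) ^ D / 2 ^ (T i).card := by
      intro Z hZ
      have hNZ : N₂ i Z ≤ Nf (κf (sup T i)) := by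
        refine le_trans ?_ (hNf3 _)
        have hZ2 : Z ∈ (T i).powerset := by
          rw [hZs] at hZ
          exact (Finset.mem_filter.1 hZ).1
        have h3 : N₂ i Z ≤ ∑ Z ∈ (T i).powerset, N₂ i Z :=
          Finset.single_le_sum (f := fun Z => N₂ i Z) (fun _ _ => Nat.zero_le _) hZ2
        have h4 : ∑ Z ∈ (T i).powerset, N₂ i Z ≤
            ∑ i ∈ Finset.range M, ∑ Z ∈ (T i).powerset, N₂ i Z :=
          Finset.single_le_sum (f := fun i => ∑ Z ∈ (T i).powerset, N₂ i Z)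
            (fun _ _ => Nat.zero_le _) (Finset.mem_range.2 hi)
        omega
      obtain ⟨h2, h3⟩ := hN₂ i Z hi _ hNZ
      refine ⟨h2, ?_⟩
      rw [le_div_iff₀ (by positivity)]
      rw [hDN] at h3
      obtain ⟨n, hn⟩ : ∃ n : ℕ, n = {f : (𝓞 F)[X] | LP 1 (Nf (κf (sup T i))) (κf (sup T i))
        (sup T M \ sup T i) (T i) Z 𝔮 P f}.ncard := ⟨_, rfl⟩
      rw [← hn] at h3 ⊢
      have h4 : Pt = (∏ q ∈ sup T M \ sup T i, q ^ (2 * 1)) ^ Module.finrank ℚ F *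
          (∏ q ∈ sup T i, q ^ (2 * 1)) ^ Module.finrank ℚ F := by
        rw [hPt, ← mul_pow, Finset.prod_sdiff (sup_mono T hi.le)]
      have h5 : (Pt * n * 2 ^ (T i).card : ℕ) ≤ (∏ q ∈ sup T i, q ^ (2 * 1)) ^ Module.finrank ℚ F *
          (Cc (κf (sup T i)) * 2 ^ (2 * Nf (κf (sup T i)) * D)) := by
        calc Pt * n * 2 ^ (T i).card
            = (∏ q ∈ sup T i, q ^ (2 * 1)) ^ Module.finrank ℚ F *
              (2 ^ (T i).card * (∏ q ∈ sup T M \ sup T i, q ^ (2 * 1)) ^ Module.finrank ℚ F *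
                n) := by rw [h4]; ring
          _ ≤ _ := Nat.mul_le_mul_left _ h3
      have h6 : ((Pt : ℝ) * n * 2 ^ (T i).card) ≤
          (((∏ q ∈ sup T i, q ^ (2 * 1)) ^ Module.finrank ℚ F : ℕ) : ℝ) *
          (Cc (κf (sup T i)) * 2 ^ (2 * Nf (κf (sup T i)) * D)) := by
        exact_mod_cast h5
      refine h6.trans ?_
      have h7 := pow_bound (D := D) (hNf2 (κf (sup T i)))
      rw [hE]
      simp only
      have h8 : (((∏ q ∈ sup T i, q ^ (2 * 1)) ^ Module.finrank ℚ F : ℕ) : ℝ) *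
          Cc (κf (sup T i)) * (4 * 2 ^ κf (sup T i) : ℝ) ^ D * (B : ℝ) ^ D =
          (((∏ q ∈ sup T i, q ^ (2 * 1)) ^ Module.finrank ℚ F : ℕ) : ℝ) *
          (Cc (κf (sup T i)) * ((4 * 2 ^ κf (sup T i) : ℝ) ^ D * (B : ℝ) ^ D)) := by ring
      rw [h8]
      apply mul_le_mul_of_nonneg_left _ (Nat.cast_nonneg _)
      exact mul_le_mul_of_nonneg_left h7 (Nat.cast_nonneg _)
    obtain ⟨h2, h3⟩ := union_bound (Zs i) (fun Z => {f : (𝓞 F)[X] |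
      LP 1 (Nf (κf (sup T i))) (κf (sup T i)) (sup T M \ sup T i) (T i) Z 𝔮 P f}) Pt hPR.le
      (fun _ => E (sup T i) * (B : ℝ) ^ D / 2 ^ (T i).card) (fun Z hZ => (h1 Z hZ).1)
      (fun Z hZ => (h1 Z hZ).2)
    refine ⟨h2, h3.trans ?_⟩
    rw [Finset.sum_const, nsmul_eq_mul]
    have h4 := hCHEB (T i) (4 ^ (sup T i).card)
    have h5 : (Zs i).card * (T i).card ≤ (4 ^ (sup T i).card) ^ 2 * 2 ^ (T i).card := by
      rw [hZs]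
      exact h4
    have h6 : ((Zs i).card : ℝ) * (T i).card ≤ ((4 : ℝ) ^ (sup T i).card) ^ 2 * 2 ^ (T i).card := by
      exact_mod_cast h5
    have h7 : ((4 : ℝ) ^ (sup T i).card) ^ 2 * E (sup T i) * (4 * M) / c ≤ (T i).card := by
      rw [hcard i hi]
      push_cast
      have := Nat.le_ceil (((4 : ℝ) ^ (sup T i).card) ^ 2 * E (sup T i) * (4 * M) / c)
      have h8 : (0 : ℝ) ≤ m0 := Nat.cast_nonneg _
      linarith
    have hTi : (0 : ℝ) < (T i).card := by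
      have : 0 < (T i).card := by rw [hcard i hi]; omega
      exact_mod_cast this
    rw [div_le_iff₀ hc] at h7
    have hBD : (0 : ℝ) ≤ (B : ℝ) ^ D := by positivity
    have h2p : (0 : ℝ) < 2 ^ (T i).card := by positivity
    obtain ⟨e, he⟩ : ∃ e : ℝ, e = E (sup T i) := ⟨_, rfl⟩
    obtain ⟨z, hz⟩ : ∃ z : ℝ, z = ((Zs i).card : ℝ) := ⟨_, rfl⟩
    obtain ⟨t, ht⟩ : ∃ t : ℝ, t = ((T i).card : ℝ) := ⟨_, rfl⟩
    obtain ⟨y, hy⟩ : ∃ y : ℝ, y = ((4 : ℝ) ^ (sup T i).card) ^ 2 := ⟨_, rfl⟩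
    have he0 : 0 ≤ e := by rw [he]; exact hE0 _
    rw [← he, ← hy, ← ht] at h7
    rw [← hz, ← ht, ← hy] at h6
    rw [← ht] at hTi
    rw [← he, ← hz]
    have h9 : z ≤ y * 2 ^ (T i).card / t := by
      rw [le_div_iff₀ hTi]
      exact h6
    calc z * (e * (B : ℝ) ^ D / 2 ^ (T i).card)
        ≤ (y * 2 ^ (T i).card / t) * (e * (B : ℝ) ^ D / 2 ^ (T i).card) :=
          mul_le_mul_of_nonneg_right h9 (by positivity)
      _ = (y * e * (4 * M)) * ((B : ℝ) ^ D / (4 * M * t)) := by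
          field_simp
      _ ≤ (t * c) * ((B : ℝ) ^ D / (4 * M * t)) := mul_le_mul_of_nonneg_right h7 (by positivity)
      _ = c / (4 * M) * (B : ℝ) ^ D := by field_simp
  obtain ⟨hU1, hU2⟩ := union_bound (Finset.range M) (fun i => ⋃ Z ∈ Zs i, {f : (𝓞 F)[X] |
    LP 1 (Nf (κf (sup T i))) (κf (sup T i)) (sup T M \ sup T i) (T i) Z 𝔮 P f}) Pt hPR.le
    (fun _ => c / (4 * M) * (B : ℝ) ^ D) (fun i hi => (hblock i hi).1)
    (fun i hi => (hblock i hi).2)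
  rw [Finset.sum_const, Finset.card_range, nsmul_eq_mul] at hU2
  have hU3 : (M : ℝ) * (c / (4 * M) * (B : ℝ) ^ D) = c / 4 * (B : ℝ) ^ D := by
    field_simp
  rw [hU3] at hU2
  -- the good polynomials
  obtain ⟨Fm, hFm⟩ : ∃ Fm : Set ((𝓞 F)[X]), Fm = {f : (𝓞 F)[X] | Fam 1 B W f₁ (sup T M) P f} :=
    ⟨_, rfl⟩
  obtain ⟨B1s, hB1s⟩ : ∃ A : Set ((𝓞 F)[X]), A =
    {f : (𝓞 F)[X] | LBad 1 (Nf κ0) κ0 (sup T M) 𝔮 P f} := ⟨_, rfl⟩
  obtain ⟨B2s, hB2s⟩ : ∃ A : Set ((𝓞 F)[X]), A = ⋃ i ∈ Finset.range M, ⋃ Z ∈ Zs i,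
    {f : (𝓞 F)[X] | LP 1 (Nf (κf (sup T i))) (κf (sup T i)) (sup T M \ sup T i) (T i) Z 𝔮 P f} :=
    ⟨_, rfl⟩
  rw [← hFm] at hFc hFfin
  rw [← hB1s] at hL hLf
  have hU2' : (Pt : ℝ) * (B2s.ncard : ℝ) ≤ c / 4 * (B : ℝ) ^ D := by rw [hB2s]; exact hU2
  have hU1' : B2s.Finite := by rw [hB2s]; exact hU1
  have hsub : Fm \ (B1s ∪ B2s) ⊆ {f : (𝓞 F)[X] | GF B W M κ0 κf f₁ T 𝔮 P f} := by
    rintro f ⟨hf1, hf2⟩
    rw [Set.mem_union, not_or] at hf2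
    obtain ⟨hf3, hf4⟩ := hf2
    rw [hFm] at hf1
    refine ⟨hf1, ⟨Nf κ0, hNf1 κ0, ?_⟩, fun i hi => ⟨Nf (κf (sup T i)), hNf1 _, ?_⟩⟩
    · intro h
      apply hf3
      rw [hB1s]
      exact h
    · intro Z hZ hLP
      apply hf4
      rw [hB2s]
      refine Set.mem_biUnion (Finset.mem_coe.2 (Finset.mem_range.2 hi)) ?_
      refine Set.mem_biUnion (x := Z) ?_ hLP
      rw [hZs]
      exact Finset.mem_coe.2 (Finset.mem_filter.2 ⟨Finset.mem_powerset.2 hZ.1, hZ.2⟩)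
  have hGfin : {f : (𝓞 F)[X] | GF B W M κ0 κf f₁ T 𝔮 P f}.Finite := by
    apply hFfin.subset
    intro f hf
    rw [hFm]
    exact hf.fam
  have hG1 := Set.ncard_le_ncard hsub hGfin
  have hG2 := Set.le_ncard_diff (B1s ∪ B2s) Fm (hLf.union hU1')
  have hG3 := Set.ncard_union_le B1s B2s
  have hG4 : (Fm.ncard : ℝ) ≤ B1s.ncard + B2s.ncard +
      ({f : (𝓞 F)[X] | GF B W M κ0 κf f₁ T 𝔮 P f}.ncard : ℝ) := by
    have : Fm.ncard ≤ B1s.ncard + B2s.ncard +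
      {f : (𝓞 F)[X] | GF B W M κ0 κf f₁ T 𝔮 P f}.ncard := by omega
    exact_mod_cast this
  rw [← hD]
  have hG5 := mul_le_mul_of_nonneg_left hG4 hPR.le
  rw [mul_add, mul_add] at hG5
  have hG6 : c / 2 * (B : ℝ) ^ D ≤
      Pt * ({f : (𝓞 F)[X] | GF B W M κ0 κf f₁ T 𝔮 P f}.ncard : ℝ) := by linarith
  calc c / 2 / Pt * (B : ℝ) ^ D = (c / 2 * (B : ℝ) ^ D) / Pt := by ring
    _ ≤ (Pt * ({f : (𝓞 F)[X] | GF B W M κ0 κf f₁ T 𝔮 P f}.ncard : ℝ)) / Pt :=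
      div_le_div_of_nonneg_right hG6 hPR.le
    _ = _ := by field_simp

end Pool.Agent.L0h71.SP
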