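import Pool.Agent.L0h94.SP.StmE
import Pool.Agent.N771.PF.Core

/-!
# SP/LAMJ: the choice of the twist

Compare `N771/PF/Core.lean` (helper771).
-/

set_option autoImplicit false
set_option linter.all false

open Polynomial IsDedekindDomain NumberField
open scoped Classical

namespace Pool.Agent.L0h71.SP

open Pool.Agent.N352.PJ (Mt Typ dd)
open Pool.Agent.N783.PQ (LocIm)
open Pool.Agent.N874.PP (Ev Sq1 U0)
open Pool.Agent.N874.JM (LocF)
open Pool.Agent.N783.PF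
open Pool.Agent.L0h94.SP
open Pool.Agent.N891.PQ (cl cl_add_aux not_ev_exp)

/-! ### The group of classes -/

theorem Cl_one (K : Type) [Field K] (f : K[X]) : Cl K f 1 :=
  ⟨[], 1, by simp, by simp⟩

theorem Cl_mul {K : Type} [Field K] {f h h' : K[X]} (H : Cl K f h) (H' : Cl K f h') :
    Cl K f (h * h') := by
  obtain ⟨l, s, h1, h2⟩ := H
  obtain ⟨l', s', h1', h2'⟩ := H'
  refine ⟨l ++ l', s * s', ?_, ?_⟩
  · intro p hp
    rcases List.mem_append.1 hp with h | h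
    · exact h1 p h
    · exact h1' p h
  · rw [List.map_append, List.prod_append]
    obtain ⟨A, hA⟩ : ∃ A, A = (l.map fun p => C p.1 - X).prod := ⟨_, rfl⟩
    obtain ⟨A', hA'⟩ : ∃ A', A' = (l'.map fun p => C p.1 - X).prod := ⟨_, rfl⟩
    rw [← hA] at h2
    rw [← hA'] at h2'
    rw [← hA, ← hA']
    have e : h * h' * (A * A') - (s * s') ^ 2 =
        (h * A - s ^ 2) * (h' * A') + s ^ 2 * (h' * A' - s' ^ 2) := by ring
    rw [e]
    exact dvd_add (h2.mul_right _) (h2'.mul_left _)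

section grp

variable {F L : Type} [Field F] [NumberField F] [Field L] [NumberField L] [Algebra F L]

theorem ev_mul' (𝔓 : HeightOneSpectrum (𝓞 L)) (x y : L) (hx : Ev 𝔓 x) (hy : Ev 𝔓 y) :
    Ev 𝔓 (x * y) := by
  obtain ⟨u, hu⟩ := hx
  obtain ⟨v, hv⟩ := hy
  exact ⟨u * v, by rw [map_mul, map_mul, hu, hv, mul_pow]⟩

theorem Mg_one (f : (𝓞 F)[X]) (θ : L) (S : Finset ℕ) (𝔔 : ℕ → HeightOneSpectrum (𝓞 L)) :
    Mg f θ S 𝔔 1 := by
  refine ⟨one_ne_zero, by rw [map_one]; exact IsSquare.one,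
    fun 𝔓 _ => ⟨1, by rw [map_one, one_pow]⟩, 1, by rw [map_one], ?_, ?_⟩
  · intro w _
    unfold ClF
    rw [Polynomial.map_one]
    exact Cl_one _ _
  · intro σ
    rw [Polynomial.map_one]
    exact Cl_one _ _

theorem Mg_mul {f : (𝓞 F)[X]} {θ : L} {S : Finset ℕ} {𝔔 : ℕ → HeightOneSpectrum (𝓞 L)} {α β : L}
    (hα : Mg f θ S 𝔔 α) (hβ : Mg f θ S 𝔔 β) : Mg f θ S 𝔔 (α * β) := by
  obtain ⟨h1, h2, h3, a, h4, h5, h6⟩ := hα
  obtain ⟨h1', h2', h3', b, h4', h5', h6'⟩ := hβ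
  refine ⟨mul_ne_zero h1 h1', ?_, fun 𝔓 h𝔓 => ev_mul' 𝔓 _ _ (h3 𝔓 h𝔓) (h3' 𝔓 h𝔓), a * b, ?_, ?_, ?_⟩
  · rw [map_mul]
    exact h2.mul h2'
  · rw [map_mul, h4, h4']
  · intro w hw
    unfold ClF
    rw [Polynomial.map_mul]
    exact Cl_mul (h5 w hw) (h5' w hw)
  · intro σ
    rw [Polynomial.map_mul]
    exact Cl_mul (h6 σ) (h6' σ)

theorem Mg_mono {f : (𝓞 F)[X]} {θ : L} {S Y : Finset ℕ} {𝔔 : ℕ → HeightOneSpectrum (𝓞 L)} {α : L}
    (hY : Y ⊆ S) (hα : Mg f θ Y 𝔔 α) : Mg f θ S 𝔔 α := by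
  obtain ⟨h1, h2, h3, h4⟩ := hα
  exact ⟨h1, h2, fun 𝔓 h => h3 𝔓 fun q hq => h q (hY hq), h4⟩

theorem psi1 {θ : L} {S : Finset ℕ} {𝔔 : ℕ → HeightOneSpectrum (𝓞 L)} {α : L} {q : ℕ}
    (hq : q ∈ S) : (psi θ S 𝔔 α q).1 = 0 ↔ Ev (𝔔 q) α := by
  unfold psi
  rw [if_pos hq]
  simp only
  constructor
  · intro h
    by_contra hn
    rw [if_neg hn] at h
    exact one_ne_zero h
  · intro h
    rw [if_pos h]

theorem psi2 {θ : L} {S : Finset ℕ} {𝔔 : ℕ → HeightOneSpectrum (𝓞 L)} {α : L} {q : ℕ}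
    (hq : q ∈ S) : (psi θ S 𝔔 α q).2 = 0 ↔ U0 (𝔔 q) ((q : L) * θ) α := by
  unfold psi
  rw [if_pos hq]
  simp only
  constructor
  · intro h
    by_contra hn
    rw [if_neg hn] at h
    exact one_ne_zero h
  · intro h
    rw [if_pos h]

theorem psi_out {θ : L} {S : Finset ℕ} {𝔔 : ℕ → HeightOneSpectrum (𝓞 L)} {α : L} {q : ℕ}
    (hq : q ∉ S) : psi θ S 𝔔 α q = 0 := by
  unfold psi
  rw [if_neg hq]

variable {W : ℕ} {f : (𝓞 F)[X]} {θ : L} {S : Finset ℕ} {𝔮 : ℕ → Ideal (𝓞 F)}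
  {r P : ℕ → (𝓞 F)[X]} {𝔔 : ℕ → HeightOneSpectrum (𝓞 L)}

theorem ov_nat (hS : GoodS 1 W S 𝔮 r P) {q : ℕ} (hq : q ∈ S) {𝔓 : HeightOneSpectrum (𝓞 L)}
    (h : Ov (𝔮 q) 𝔓) : Pool.Agent.N783.PQ.Ov q 𝔓 := by
  have h1 := h _ (hS q hq).2.2.2.2.2.2.1
  rw [map_natCast] at h1
  exact h1

theorem ov_uniq (hS : GoodS 1 W S 𝔮 r P) {q q' : ℕ} (hq : q ∈ S) (hq' : q' ∈ S)
    {𝔓 : HeightOneSpectrum (𝓞 L)} (h : Ov (𝔮 q) 𝔓) (h' : Ov (𝔮 q') 𝔓) : q = q' := by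
  by_contra hne
  have h1 : (q : 𝓞 L) ∈ 𝔓.asIdeal := ov_nat hS hq h
  have h2 : (q' : 𝓞 L) ∈ 𝔓.asIdeal := ov_nat hS hq' h'
  have hco : Nat.Coprime q q' := (Nat.coprime_primes (hS q hq).1 (hS q' hq').1).2 hne
  have h3 : IsCoprime (q : ℤ) (q' : ℤ) := Nat.isCoprime_iff_coprime.2 hco
  obtain ⟨a, b, hab⟩ := h3
  apply 𝔓.isPrime.ne_top
  rw [Ideal.eq_top_iff_one]
  have h4 : (1 : 𝓞 L) = (a : 𝓞 L) * (q : 𝓞 L) + (b : 𝓞 L) * (q' : 𝓞 L) := by
    have := congrArg (fun z : ℤ => (z : 𝓞 L)) hab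
    push_cast at this
    exact this.symm
  rw [h4]
  exact Ideal.add_mem _ (Ideal.mul_mem_left _ _ h1) (Ideal.mul_mem_left _ _ h2)

theorem nev (hEXQ : S_EXQ) (hc : IsGen 1 f θ) (hsq : SqF 1 f) (hS : GoodS 1 W S 𝔮 r P)
    (hcg : ∀ q ∈ S, Cg (𝔮 q) f (X * r q)) (hQ : BigQ θ S 𝔮 𝔔) :
    ∀ q ∈ S, ¬ Ev (𝔔 q) ((q : L) * θ) := by
  intro q hq
  obtain ⟨𝔓₁, 𝔓₂, a1, a2, a3, a4, a5, a6, a7⟩ :=
    hEXQ 1 W F L f θ S 𝔮 r P le_rfl hc hsq hS q hq (hcg q hq)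
  rcases a7 (𝔔 q) (hQ q hq).1 with h | h
  · exfalso
    have := (hQ q hq).2
    rw [h] at this
    exact a3.ne this
  · rw [h]
    refine not_ev_exp ?_
    rw [map_mul, a6, a4, mul_one]

theorem psi_mul (hS : GoodS 1 W S 𝔮 r P) (hQ : BigQ θ S 𝔮 𝔔)
    (hnev : ∀ q ∈ S, ¬ Ev (𝔔 q) ((q : L) * θ)) {α β : L} (hα : α ≠ 0) (hβ : β ≠ 0) :
    psi θ S 𝔔 (α * β) = psi θ S 𝔔 α + psi θ S 𝔔 β := by
  funext q
  rw [Pi.add_apply]
  by_cases hq : q ∈ S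
  · have hq2 : q ≠ 2 := by
      intro h
      have := (hS q hq).2.2.2.1
      rw [h] at this
      omega
    have hϖ : (q : L) * θ ≠ 0 := by
      intro h0
      exact hnev q hq (by rw [h0]; exact ⟨0, by simp⟩)
    have h := Pool.Agent.N457.PQ.cls L q (𝔔 q) ((q : L) * θ) (hS q hq).1 hq2
      (ov_nat hS hq (hQ q hq).1) hϖ (hnev q hq) α β hα hβ
    unfold psi
    rw [if_pos hq, if_pos hq, if_pos hq]
    exact Prod.ext (cl_add_aux h.1) (cl_add_aux h.2)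
  · rw [psi_out hq, psi_out hq, psi_out hq, add_zero]

theorem two_zero (x : ℕ → ZMod 2 × ZMod 2) : x + x = 0 := by
  funext q
  exact Prod.ext (CharTwo.add_self_eq_zero _) (CharTwo.add_self_eq_zero _)

theorem psi_sq (hS : GoodS 1 W S 𝔮 r P) (hQ : BigQ θ S 𝔮 𝔔)
    (hnev : ∀ q ∈ S, ¬ Ev (𝔔 q) ((q : L) * θ)) {α : L} (hα : α ≠ 0) (h : IsSquare α) :
    psi θ S 𝔔 α = 0 := by
  obtain ⟨t, rfl⟩ := h
  have ht : t ≠ 0 := fun h0 => hα (by rw [h0, mul_zero])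
  rw [psi_mul hS hQ hnev ht ht, two_zero]

end grp

/-- The choice of the twist, for every `κ0`. -/
theorem lamj (hCLIMB : S_CLIMB) (hREAL : S_REAL) (hWTS : S_WTS) (hLWY : S_LWY) (hREC : S_REC)
    (hCLL : S_CLL) (hEXQ : S_EXQ) : ∀ (F : Type) [Field F] [NumberField F] (a : ℕ), ∃ (M : ℕ)
  (κf : Finset ℕ → ℕ), 0 < M ∧ ∀ κ0 : ℕ,
  ∀ (L : Type) [Field L] [NumberField L] [Algebra F L] (f f₁ : (𝓞 F)[X]) (θ : L) (B W : ℕ)
  (T : ℕ → Finset ℕ) (𝔮 : ℕ → Ideal (𝓞 F)) (r P : ℕ → (𝓞 F)[X]),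
  IsGen 1 f θ → SqF 1 f → Blk W M κf T 𝔮 r P → (∀ i < M, (T i).Nonempty) →
  GF B W M κ0 κf f₁ T 𝔮 P f →
  ∀ 𝔔 : ℕ → HeightOneSpectrum (𝓞 L), BigQ θ (sup T M) 𝔮 𝔔 →
  ∃ J ⊆ sup T M, ∃ R : Finset L, R.card = 2 ^ a ∧
    (∀ α ∈ R, Mg f θ (sup T M) 𝔔 α ∧ InW J (psi θ (sup T M) 𝔔 α)) ∧
    (∀ x ∈ R, ∀ y ∈ R, x ≠ y → ¬ IsSquare (x * y)) ∧
    ∀ α, Mg f θ (sup T M) 𝔔 α → InW J (psi θ (sup T M) 𝔔 α) → ∃ β ∈ R, IsSquare (α * β) := by
  intro F _ _ a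
  obtain ⟨c0, hc0⟩ := hLWY F
  obtain ⟨M, hM, hcl⟩ := hCLIMB a c0
  obtain ⟨κf, hκf⟩ := hWTS F
  refine ⟨M, κf, hM, ?_⟩
  intro κ0 L _ _ _ f f₁ θ B W T 𝔮 r P hc hsq hBlk hne hGF 𝔔 hQ
  obtain ⟨S, hSdef⟩ : ∃ S, S = sup T M := ⟨_, rfl⟩
  have hS : GoodS 1 W S 𝔮 r P := by rw [hSdef]; exact hBlk.good
  have hfam : Fam 1 B W f₁ S P f := by rw [hSdef]; exact hGF.fam
  have hcg := Pool.Agent.N771.PF.cg_q hS hfam
  have hcon : ∀ q ∈ S, Cg (sp F q) f (P q) := hfam.con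
  rw [← hSdef]
  have hQS : BigQ θ S 𝔮 𝔔 := by rw [hSdef]; exact hQ
  have hnev := nev hEXQ hc hsq hS hcg hQS
  have hsubS : ∀ i, i ≤ M → sup T i ⊆ S := by
    intro i hi
    rw [hSdef]
    exact Finset.biUnion_subset_biUnion_of_subset_left T (Finset.range_mono hi)
  have hTS : ∀ i, i < M → T i ⊆ S := by
    intro i hi
    rw [hSdef]
    exact Finset.subset_biUnion_of_mem T (Finset.mem_range.2 hi)
  have hTdis : ∀ i, i < M → ∀ q ∈ T i, q ∉ sup T i := by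
    intro i hi q hq hq'
    unfold sup at hq'
    rw [Finset.mem_biUnion] at hq'
    obtain ⟨j, hj, hqj⟩ := hq'
    rw [Finset.mem_range] at hj
    exact Finset.disjoint_left.1 (hBlk.disj i hi j (hj.trans hi) (by omega)) hq hqj
  -- evenness
  have hEv : ∀ (Y : Finset ℕ), Y ⊆ S → ∀ α, Mg f θ S 𝔔 α →
      (∀ q, q ∉ Y → (psi θ S 𝔔 α q).1 = 0) →
      ∀ 𝔓 : HeightOneSpectrum (𝓞 L), (∀ q ∈ Y, 𝔓 ≠ 𝔔 q) → Ev 𝔓 α := by
    intro Y hY α hα h1 𝔓 h𝔓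
    by_cases h : ∀ q ∈ S, 𝔓 ≠ 𝔔 q
    · exact hα.2.2.1 𝔓 h
    · push Not at h
      obtain ⟨q, hq, rfl⟩ := h
      have hqY : q ∉ Y := fun h => h𝔓 q h rfl
      exact (psi1 hq).1 (h1 q hqY)
  -- injectivity
  have hinj : ∀ γ, Mg f θ S 𝔔 γ → (∀ q, (psi θ S 𝔔 γ q).1 = 0) →
      (∀ q ∈ T 0, (psi θ S 𝔔 γ q).2 = 0) → IsSquare γ := by
    intro γ hγ h1 h2
    by_contra hns
    have hsup0 : sup T 0 = ∅ := by simp [sup]
    have hE := hEv ∅ (Finset.empty_subset _) γ hγ (fun q _ => h1 q)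
    have h3 := hκf L f f₁ θ B W M κ0 T 𝔮 r P hc hsq hBlk hGF 𝔔 hQ 0 hM γ hγ.1 hγ.2.1
      (by rw [hsup0]; exact hE) hns
    apply h3
    have h4 : ((T 0).filter fun q => Sq1 (𝔔 q) γ) = T 0 := by
      apply Finset.filter_true_of_mem
      intro q hq
      have hqS := hTS 0 hM hq
      exact ((psi2 hqS).1 (h2 q hq)).1 ((psi1 hqS).1 (h1 q))
    rw [h4, hsup0, Finset.card_empty]
    refine ⟨le_refl _, ?_⟩
    have e : (2 * ((T 0).card : ℤ) - (T 0).card) = (T 0).card := by ring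
    rw [e, pow_zero, Nat.cast_one, one_mul]
    exact le_abs_self _
  have hinj0 : ∀ γ, Mg f θ S 𝔔 γ → psi θ S 𝔔 γ = 0 → IsSquare γ := by
    intro γ hγ h
    apply hinj γ hγ
    · intro q
      rw [h]
      rfl
    · intro q _
      rw [h]
      rfl
  have hpm : ∀ {α β : L}, Mg f θ S 𝔔 α → Mg f θ S 𝔔 β →
      psi θ S 𝔔 (α * β) = psi θ S 𝔔 α + psi θ S 𝔔 β := fun hα hβ =>
    psi_mul hS hQS hnev hα.1 hβ.1
  -- the group
  let Λ : AddSubgroup (ℕ → ZMod 2 × ZMod 2) :=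
    { carrier := {l | ∃ α, Mg f θ S 𝔔 α ∧ psi θ S 𝔔 α = l}
      add_mem' := by
        rintro _ _ ⟨α, hα, rfl⟩ ⟨β, hβ, rfl⟩
        exact ⟨α * β, Mg_mul hα hβ, hpm hα hβ⟩
      zero_mem' := ⟨1, Mg_one _ _ _ _, psi_sq hS hQS hnev one_ne_zero IsSquare.one⟩
      neg_mem' := by
        rintro _ ⟨α, hα, rfl⟩
        refine ⟨α, hα, ?_⟩
        rw [eq_neg_iff_add_eq_zero]
        exact two_zero _ }
  have hΛ : ∀ l, l ∈ Λ ↔ ∃ α, Mg f θ S 𝔔 α ∧ psi θ S 𝔔 α = l := fun l => Iff.rfl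
  have hout : ∀ x ∈ Λ, ∀ q, q ∉ S → x q = 0 := by
    rintro _ ⟨α, hα, rfl⟩ q hq
    exact psi_out hq
  have hfinΛ : Finite Λ := by
    refine Finite.of_injective (fun (x : Λ) (q : S) => x.1 q) ?_
    intro x y hxy
    apply Subtype.ext
    funext q
    by_cases hq : q ∈ S
    · exact congrFun hxy ⟨q, hq⟩
    · rw [hout x.1 x.2 q hq, hout y.1 y.2 q hq]
  -- the hypotheses of CLIMB
  have H3 : ∀ x ∈ Λ, ∑ q ∈ sup T M, (x q).1 * (x q).2 = 0 := by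
    rintro _ ⟨α, hα, rfl⟩
    rw [← hSdef]
    obtain ⟨b1, b2, b3, h₀, b4, b5, b6⟩ := hα
    have h := hREC 1 W F L f θ S 𝔮 r P le_rfl hc hsq hS hcon 𝔔 hQS h₀ (by rw [b4]; exact b1)
      (by rw [b4]; exact b2) (by rw [b4]; exact b3) (fun w hw => hCLL _ _ _ (b5 w hw))
      (fun σ => hCLL _ _ _ (b6 σ))
    rw [b4] at h
    have e1 : ∑ q ∈ S, (psi θ S 𝔔 α q).1 * (psi θ S 𝔔 α q).2 = ∑ q ∈ S,
        (if ¬ Ev (𝔔 q) α ∧ ¬ Sq1 (𝔔 q) (α * ((q : L) * θ)) then (1 : ZMod 2) else 0) := by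
      refine Finset.sum_congr rfl fun q hq => ?_
      unfold psi
      rw [if_pos hq]
      simp only
      by_cases he : Ev (𝔔 q) α
      · rw [if_pos he, zero_mul, if_neg (fun h => h.1 he)]
      · by_cases hs : Sq1 (𝔔 q) (α * (((q : ℕ) : L) * θ))
        · have hu : U0 (𝔔 q) (((q : ℕ) : L) * θ) α := ⟨fun h => absurd h he, fun _ => hs⟩
          rw [if_neg he, if_pos hu, mul_zero, if_neg (fun h => h.2 hs)]
        · have hu : ¬ U0 (𝔔 q) (((q : ℕ) : L) * θ) α := fun h => hs (h.2 he)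
          rw [if_neg he, if_neg hu, mul_one, if_pos ⟨he, hs⟩]
    rw [e1, Finset.sum_ite, Finset.sum_const_zero, add_zero, Finset.sum_const, nsmul_eq_mul,
      mul_one]
    exact (ZMod.natCast_eq_zero_iff_even).2 h
  have H5 : ∀ x ∈ Λ, (∀ q, (x q).1 = 0) → (∀ q ∈ T 0, (x q).2 = 0) → x = 0 := by
    rintro _ ⟨α, hα, rfl⟩ h1 h2
    exact psi_sq hS hQS hnev hα.1 (hinj α hα h1 h2)
  have H4 : ∀ Y ⊆ sup T M, 2 ^ Y.card ≤
      c0 * Nat.card {x : Λ // ∀ q, q ∉ Y → (x.1 q).1 = 0} := by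
    intro Y hY
    rw [← hSdef] at hY
    obtain ⟨A, hA1, hA2, hA3⟩ := hc0 L f θ W S 𝔮 r P hc hsq hS hcg 𝔔 hQS Y hY
    refine hA1.trans (Nat.mul_le_mul_left _ ?_)
    have hmem : ∀ α ∈ A, ∀ q, q ∉ Y → (psi θ S 𝔔 α q).1 = 0 := by
      intro α hα q hqY
      by_cases hq : q ∈ S
      · rw [psi1 hq]
        apply (hA2 α hα).2.2.1
        intro q' hq' h
        apply hqY
        have := ov_uniq hS hq (hY hq') (hQS q hq).1 (by rw [h]; exact (hQS q' (hY hq')).1)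
        rw [this]
        exact hq'
      · rw [psi_out hq]
        rfl
    have h1 : A.card = Nat.card A := by rw [Nat.card_eq_fintype_card, Fintype.card_coe]
    rw [h1]
    refine Nat.card_le_card_of_injective (fun α : A =>
      (⟨⟨psi θ S 𝔔 α.1, α.1, Mg_mono hY (hA2 α.1 α.2), rfl⟩, hmem α.1 α.2⟩ :
        {x : Λ // ∀ q, q ∉ Y → (x.1 q).1 = 0})) ?_
    intro α β hαβ
    have h2 : psi θ S 𝔔 α.1 = psi θ S 𝔔 β.1 := congrArg (fun z => z.1.1) hαβ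
    apply Subtype.ext
    by_contra hne2
    apply hA3 α.1 α.2 β.1 β.2 hne2
    have hα := Mg_mono hY (hA2 α.1 α.2)
    have hβ := Mg_mono hY (hA2 β.1 β.2)
    apply hinj0 _ (Mg_mul hα hβ)
    rw [hpm hα hβ, h2, two_zero]
  have H6 : ∀ i, i + 1 < M → ∀ φ : Λ →+ ZMod 2, ∃ q ∈ T (i + 1), ∀ x : Λ,
      (∀ q', q' ∉ sup T (i + 1) → (x.1 q').1 = 0) → (x.1 q).2 = φ x := by
    intro i hi φ
    let V : AddSubgroup Λ :=
      { carrier := {x | ∀ q', q' ∉ sup T (i + 1) → (x.1 q').1 = 0}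
        add_mem' := by
          intro x y hx hy q' hq'
          have e : ((x + y : Λ).1 q').1 = (x.1 q').1 + (y.1 q').1 := rfl
          rw [e, hx q' hq', hy q' hq', add_zero]
        zero_mem' := by
          intro q' hq'
          rfl
        neg_mem' := by
          intro x hx q' hq'
          have e : ((-x : Λ).1 q').1 = -(x.1 q').1 := rfl
          rw [e, hx q' hq', neg_zero] }
    have hVm : ∀ x : Λ, x ∈ V ↔ ∀ q', q' ∉ sup T (i + 1) → (x.1 q').1 = 0 := fun x => Iff.rfl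
    let e : ℕ → V →+ ZMod 2 := fun q =>
      { toFun := fun x => (x.1.1 q).2
        map_zero' := rfl
        map_add' := fun x y => rfl }
    have he : ∀ q (x : V), e q x = (x.1.1 q).2 := fun q x => rfl
    have hcardV : Nat.card V ≤ 4 ^ (sup T (i + 1)).card := by
      have h1 : Nat.card (sup T (i + 1) → ZMod 2 × ZMod 2) = 4 ^ (sup T (i + 1)).card := by
        rw [Nat.card_fun, Nat.card_prod, Nat.card_zmod, Nat.card_eq_fintype_card, Fintype.card_coe]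
      rw [← h1]
      refine Nat.card_le_card_of_injective (fun (x : V) (q : sup T (i + 1)) => x.1.1 q) ?_
      intro x y hxy
      have hx := (hVm x.1).1 x.2
      have hy := (hVm y.1).1 y.2
      have hz : (x.1.1 + y.1.1) = 0 := by
        apply H5 _ (Λ.add_mem x.1.2 y.1.2)
        · intro q
          have e1 : ((x.1.1 + y.1.1) q).1 = (x.1.1 q).1 + (y.1.1 q).1 := rfl
          rw [e1]
          by_cases hq : q ∈ sup T (i + 1)
          · have h2 := congrFun hxy ⟨q, hq⟩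
            simp only at h2
            rw [h2]
            exact CharTwo.add_self_eq_zero _
          · rw [hx q hq, hy q hq, add_zero]
        · intro q hq
          have e1 : ((x.1.1 + y.1.1) q).2 = (x.1.1 q).2 + (y.1.1 q).2 := rfl
          rw [e1]
          have hq' : q ∈ sup T (i + 1) := by
            unfold sup
            rw [Finset.mem_biUnion]
            exact ⟨0, Finset.mem_range.2 (Nat.succ_pos i), hq⟩
          have h2 := congrFun hxy ⟨q, hq'⟩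
          simp only at h2
          rw [h2]
          exact CharTwo.add_self_eq_zero _
      apply Subtype.ext
      apply Subtype.ext
      have h3 : x.1.1 = x.1.1 + (y.1.1 + y.1.1) := by rw [two_zero, add_zero]
      rw [h3, ← add_assoc, hz, zero_add]
    have hbal : ∀ x : V, x ≠ 0 → (Nat.card V : ℤ) *
        |2 * (((T (i + 1)).filter fun q => e q x = 0).card : ℤ) - (T (i + 1)).card| <
        (T (i + 1)).card := by
      intro x hx
      obtain ⟨α, hα, hαx⟩ := (hΛ x.1.1).1 x.1.2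
      have hxV := (hVm x.1).1 x.2
      have hEα := hEv (sup T (i + 1)) (hsubS _ hi.le) α hα (by
        intro q hq
        rw [hαx]
        exact hxV q hq)
      have hns : ¬ IsSquare α := by
        intro h
        apply hx
        apply Subtype.ext
        apply Subtype.ext
        rw [← hαx, psi_sq hS hQS hnev hα.1 h]
        rfl
      have h3 := hκf L f f₁ θ B W M κ0 T 𝔮 r P hc hsq hBlk hGF 𝔔 hQ (i + 1) hi α hα.1 hα.2.1
        hEα hns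
      have h4 : ((T (i + 1)).filter fun q => e q x = 0) =
          ((T (i + 1)).filter fun q => Sq1 (𝔔 q) α) := by
        apply Finset.filter_congr
        intro q hq
        have hqS := hTS (i + 1) hi hq
        have hEq : Ev (𝔔 q) α := by
          rw [← psi1 (θ := θ) hqS, hαx]
          exact hxV q (hTdis (i + 1) hi q hq)
        rw [he, ← hαx, psi2 hqS]
        exact ⟨fun h => h.1 hEq, fun h => ⟨fun _ => h, fun h' => absurd hEq h'⟩⟩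
      rw [h4]
      have h5 : ¬ (((T (i + 1)).card : ℤ) ≤ (4 ^ (sup T (i + 1)).card : ℕ) *
          |2 * (((T (i + 1)).filter fun q => Sq1 (𝔔 q) α).card : ℤ) - (T (i + 1)).card|) :=
        fun h => h3 ⟨Finset.filter_subset _ _, h⟩
      push Not at h5
      refine lt_of_le_of_lt ?_ h5
      apply mul_le_mul_of_nonneg_right _ (abs_nonneg _)
      exact_mod_cast hcardV
    obtain ⟨q, hq, heq⟩ := hREAL V (fun x => by
      apply Subtype.ext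
      apply Subtype.ext
      exact two_zero _) (T (i + 1)) e (hne (i + 1) hi) hbal (φ.comp V.subtype)
    refine ⟨q, hq, fun x hx => ?_⟩
    have h1 := DFunLike.congr_fun heq (⟨x, hx⟩ : V)
    exact h1
  obtain ⟨J, hJ, hJc⟩ := hcl T Λ hBlk.disj (by rw [← hSdef]; exact hout) H3 H4 H5 H6
  rw [← hSdef] at hJ
  -- the representatives
  have hch : ∀ x : {x : Λ // InW J x.1}, ∃ α, Mg f θ S 𝔔 α ∧ psi θ S 𝔔 α = x.1.1 := fun x =>
    x.1.2
  choose g hg1 hg2 using hch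
  have hgi : Function.Injective g := by
    intro x y hxy
    apply Subtype.ext
    apply Subtype.ext
    rw [← hg2 x, ← hg2 y, hxy]
  have hfinX : Finite {x : Λ // InW J x.1} := inferInstance
  haveI := Fintype.ofFinite {x : Λ // InW J x.1}
  refine ⟨J, hJ, Finset.univ.image g, ?_, ?_, ?_, ?_⟩
  · rw [Finset.card_image_of_injective _ hgi, Finset.card_univ, ← Nat.card_eq_fintype_card, hJc]
  · intro α hα
    rw [Finset.mem_image] at hα
    obtain ⟨x, -, rfl⟩ := hα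
    refine ⟨hg1 x, ?_⟩
    rw [hg2]
    exact x.2
  · intro α hα β hβ hne2 hsqr
    rw [Finset.mem_image] at hα hβ
    obtain ⟨x, -, rfl⟩ := hα
    obtain ⟨y, -, rfl⟩ := hβ
    apply hne2
    have h1 := psi_sq hS hQS hnev (mul_ne_zero (hg1 x).1 (hg1 y).1) hsqr
    rw [hpm (hg1 x) (hg1 y), hg2, hg2] at h1
    have h2 : x.1.1 = y.1.1 := by
      have h3 : x.1.1 = x.1.1 + (y.1.1 + y.1.1) := by rw [two_zero, add_zero]
      rw [h3, ← add_assoc, h1, zero_add]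
    have h3 : x = y := Subtype.ext (Subtype.ext h2)
    rw [h3]
  · intro α hα hαJ
    obtain ⟨x, hx⟩ : ∃ x : {x : Λ // InW J x.1}, x.1.1 = psi θ S 𝔔 α :=
      ⟨⟨⟨psi θ S 𝔔 α, α, hα, rfl⟩, hαJ⟩, rfl⟩
    refine ⟨g x, Finset.mem_image_of_mem _ (Finset.mem_univ _), ?_⟩
    apply hinj0 _ (Mg_mul hα (hg1 x))
    rw [hpm hα (hg1 x), hg2, hx, two_zero]

theorem t_LAMJ (hCLIMB : S_CLIMB) (hREAL : S_REAL) (hWTS : S_WTS) (hLWY : S_LWY) (hREC : S_REC)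
    (hCLL : S_CLL) (hEXQ : S_EXQ) : S_LAMJ := by
  intro F _ _ a
  obtain ⟨M, κf, hM, h⟩ := lamj hCLIMB hREAL hWTS hLWY hREC hCLL hEXQ F a
  refine ⟨M, 0, 0, κf, hM, ?_⟩
  intro L _ _ _ f f₁ θ B W T 𝔮 r P _ hc hsq _ hBlk hne hGF _ 𝔔 hQ
  exact h 0 L f f₁ θ B W T 𝔮 r P hc hsq hBlk hne hGF 𝔔 hQ

end Pool.Agent.L0h71.SP
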