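import Pool.Agent.L0h94.SP.StmA
import Pool.Agent.N999.PF.Orb

/-!
# SP/ORBP: every irreducible polynomial comes from many pairs

The version of `Pool/Agent/N999/PF/Orb.lean` (helper999) with prescribed distinguished and not
distinguished pairs.
-/

set_option autoImplicit false
set_option linter.all false

open Polynomial IsDedekindDomain Matrix NumberField
open scoped Classical

namespace Pool.Agent.L0h71.SP

open Pool.Agent.N352.PJ (Mt Typ dd)
open Pool.Agent.N783.PQ (chp form Dist Gap Mid Deep eA eB eU uu)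
open Pool.Agent.N874.PP (Ev Sq1 U0)
open Pool.Agent.N783.PF
open Pool.Agent.N999.PF
open Pool.Agent.L0h94.SP
open Pool.Agent.N530.PQ (op_act chp_act symm_act form_act Ix mem_ix)

theorem dist_iff {g : ℕ} {R : Type} [CommRing R] {U A B : Mt g R} (hU : IsUnit U.det) :
    Dist (Uᵀ * A * U) (Uᵀ * B * U) ↔ Dist A B := by
  refine ⟨fun h => ?_, dist_act hU⟩
  have hU' : IsUnit (U⁻¹).det := by
    rw [Matrix.det_nonsing_inv]
    exact hU.ringInverse
  have key : ∀ M : Mt g R, (U⁻¹)ᵀ * (Uᵀ * M * U) * U⁻¹ = M := by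
    intro M
    have h1 : (U⁻¹)ᵀ * Uᵀ = 1 := by
      rw [← Matrix.transpose_mul, Matrix.mul_nonsing_inv _ hU, Matrix.transpose_one]
    calc (U⁻¹)ᵀ * (Uᵀ * M * U) * U⁻¹ = ((U⁻¹)ᵀ * Uᵀ) * M * (U * U⁻¹) := by
          simp only [Matrix.mul_assoc]
      _ = M := by rw [h1, Matrix.mul_nonsing_inv _ hU, Matrix.one_mul, Matrix.mul_one]
  have h2 := dist_act hU' h
  rwa [key, key] at h2

section count

variable {F : Type} [Field F] [NumberField F] {g : ℕ}

theorem X_act {κ : ℕ} (hκ : (2 * g + 1) ^ 2 ≤ 2 ^ κ) {c : ℕ} {S U₀ Z : Finset ℕ}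
    {𝔮 : ℕ → Ideal (𝓞 F)} {P : ℕ → (𝓞 F)[X]} {N : ℕ}
    {w : Fin (2 * g + 1) → ℤ} {A B U : Mt g (𝓞 F)} (hX : XP g N c w S U₀ Z 𝔮 P A B) (hU : Uni w U) :
    XP g (N + κ) (c + κ) w S U₀ Z 𝔮 P (Uᵀ * A * U) (Uᵀ * B * U) where
  box := {
    sA := symm_act hX.box.sA
    sB := symm_act hX.box.sB
    det := by
      obtain ⟨x, h1, h2, h3⟩ := hX.box.det
      refine ⟨x, h1, ?_, h3.trans (Nat.pow_le_pow_right (by norm_num) (Nat.le_add_right _ _))⟩
      rw [Matrix.det_mul, Matrix.det_mul, Matrix.det_transpose, hU.det, one_mul, mul_one]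
      exact h2
    tr := by rw [tr_act hU.det]; exact hX.box.tr
    bA := fun i j => by
      refine bd_mono (hU.box hX.box.bA i j) ?_
      have h1 : (((2 * g + 1 : ℕ) : ℝ)) ^ 2 ≤ (2 : ℝ) ^ (κ : ℤ) := by
        rw [zpow_natCast]
        exact_mod_cast hκ
      have h2 : (2 : ℝ) ^ (((c + κ : ℕ) : ℤ) + w i + w j) =
          (2 : ℝ) ^ (κ : ℤ) * (2 : ℝ) ^ ((c : ℤ) + w i + w j) := by
        rw [← zpow_add₀ (by norm_num : (2 : ℝ) ≠ 0)]
        congr 1
        push_cast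
        ring
      rw [h2]
      exact mul_le_mul_of_nonneg_right h1 (by positivity)
    bB := fun i j => by
      refine bd_mono (hU.box hX.box.bB i j) ?_
      have h1 : (((2 * g + 1 : ℕ) : ℝ)) ^ 2 ≤ (2 : ℝ) ^ (2 * (κ : ℤ)) := by
        have h3 : (((2 * g + 1 : ℕ) : ℝ)) ^ 2 ≤ (2 : ℝ) ^ (κ : ℤ) := by
          rw [zpow_natCast]
          exact_mod_cast hκ
        refine h3.trans (zpow_le_zpow_right₀ (by norm_num) ?_)
        omega
      have h2 : (2 : ℝ) ^ (2 * ((N + κ : ℕ) : ℤ) + w i + w j) =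
          (2 : ℝ) ^ (2 * (κ : ℤ)) * (2 : ℝ) ^ (2 * (N : ℤ) + w i + w j) := by
        rw [← zpow_add₀ (by norm_num : (2 : ℝ) ≠ 0)]
        congr 1
        push_cast
        ring
      rw [h2]
      exact mul_le_mul_of_nonneg_right h1 (by positivity) }
  con := fun q hq 𝔭 h1 h2 => by
    have h3 := hX.con q hq 𝔭 h1 h2
    rw [← h3, rm, rm, map_act, map_act, chp_act (map_unit _ hU.det)]
  dist := fun q hq => by
    rw [rm, rm, map_act, map_act]
    exact (dist_iff (map_unit _ hU.det)).trans (hX.dist q hq)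

end count

/-- SP/ORBP -/
theorem t_ORBP (hP : Pool.Agent.N783.PF.S_PTS) : S_ORBP := by
  intro F _ _ g
  obtain ⟨-, C0, hC0, hC, -⟩ := hP F
  refine ⟨2 * (2 * g + 1), ⌈C0⌉₊ ^ Fintype.card (Ix g), ?_⟩
  intro c S U₀ Z 𝔮 P N w hw hfin
  have hcard := card_par (F := F) (C := ⌈C0⌉₊) (fun R hR => (hC R hR).2.trans
    (mul_le_mul_of_nonneg_right (Nat.le_ceil C0) (Nat.cast_nonneg _))) hw
  have hκ : (2 * g + 1) ^ 2 ≤ 2 ^ (2 * (2 * g + 1)) := by
    rw [mul_comm 2 (2 * g + 1), pow_mul]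
    exact Nat.pow_le_pow_left (Nat.lt_two_pow_self).le 2
  obtain ⟨κ, hκe⟩ : ∃ κ, κ = 2 * (2 * g + 1) := ⟨_, rfl⟩
  rw [← hκe] at hκ hfin ⊢
  have hfin' : Finite {p : Mt g (𝓞 F) × Mt g (𝓞 F) |
    XP g (N + κ) (c + κ) w S U₀ Z 𝔮 P p.1 p.2} := hfin.to_subtype
  refine (Nat.mul_le_mul_left _ hcard).trans ?_
  rw [Nat.mul_left_comm]
  refine Nat.mul_le_mul_left _ ?_
  rw [← Nat.card_coe_set_eq, ← Nat.card_prod, ← Nat.card_coe_set_eq]
  have hch : ∀ f : {f : (𝓞 F)[X] | Irreducible (fF f) ∧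
      ∃ A B : Mt g (𝓞 F), XP g N c w S U₀ Z 𝔮 P A B ∧ chp (mF A) (mF B) = fF f},
      ∃ A B : Mt g (𝓞 F), XP g N c w S U₀ Z 𝔮 P A B ∧ chp (mF A) (mF B) = fF f.1 := fun f => f.2.2
  choose A B hB1 hB2 using hch
  refine Nat.card_le_card_of_injective
    (fun z => (⟨((mat z.2)ᵀ * A z.1 * mat z.2, (mat z.2)ᵀ * B z.1 * mat z.2),
      X_act hκ (hB1 z.1) (mat_uni z.2)⟩ :
      {p : Mt g (𝓞 F) × Mt g (𝓞 F) | XP g (N + κ) (c + κ) w S U₀ Z 𝔮 P p.1 p.2})) ?_
  rintro ⟨f, u⟩ ⟨f', u'⟩ he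
  have h0 : ((mat u)ᵀ * A f * mat u, (mat u)ᵀ * B f * mat u) =
      ((mat u')ᵀ * A f' * mat u', (mat u')ᵀ * B f' * mat u') := congrArg Subtype.val he
  have h4 : (mat u)ᵀ * A f * mat u = (mat u')ᵀ * A f' * mat u' := congrArg Prod.fst h0
  have h5 : (mat u)ᵀ * B f * mat u = (mat u')ᵀ * B f' * mat u' := congrArg Prod.snd h0
  have h6 : f = f' := by
    apply Subtype.ext
    apply Polynomial.map_injective (algebraMap (𝓞 F) F) RingOfIntegers.coe_injective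
    have e1 := hB2 f
    have e2 := hB2 f'
    rw [← chp_act (A := mF (A f)) (B := mF (B f)) (map_unit (algebraMap (𝓞 F) F) (mat_uni u).det),
      ← map_act, ← map_act, h4, h5, map_act, map_act,
      chp_act (map_unit (algebraMap (𝓞 F) F) (mat_uni u').det), e2] at e1
    exact e1.symm
  subst h6
  have h7 := free (A := A f) (B := B f) (by rw [hB2 f]; exact f.2.1) (mat_uni u)
    (mat_uni u') h4 h5
  rw [mat_inj h7]

end Pool.Agent.L0h71.SP
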